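import Pool.Agent.Y674.LD.Z3b
import Pool.Agent.W184.NZ.Ranges
import Pool.Agent.TH806.Sh
import Pool.Agent.TH806.TwB
import Pool.Agent.TH838.LK.AV2
import Pool.Agent.TH883.LM_SHM
import Pool.Agent.Y745.LD.DefsB

set_option autoImplicit false

/-! LD-Z3: the twisted second moment of zeta with the short product. -/

namespace Pool.Agent.Y674.LD

open Finset MonoidAlgebra MeasureTheory Filter Topology
open Pool.Agent.W184.NZ (DA lam w1 wl l1 l1_nonneg l1_sum l1_smul l1_pow l1_mul Bd NK NK_eq NK_sq NK_map NK_Bd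
  xI yI vI xI_Bd yI_Bd xI_l1 yI_l1 ev ev_xI ev_yI PI wz wz_int ev_re_cont ev_re_le)
open Pool.Agent.TH806
open Pool.Agent.H306R2.SM (om cl Yf)
open Pool.Agent.H262R4.TM (Rng Ck)
open Pool.Agent.Y745.LD

noncomputable section

theorem NK_l1' {b : ℝ} (hb : 1 ≤ b) {f : DA} (hf : l1 f ≤ b) (K : ℕ) (a : ℝ) :
    l1 (NK K a f) ≤ Real.exp |a| * b ^ K := by
  refine (l1_sum _ _).trans ?_
  have h1 : ∀ k ∈ range (K + 1), l1 ((a ^ k / (k.factorial : ℝ)) • f ^ k) ≤
      (|a| ^ k / (k.factorial : ℝ)) * b ^ K := by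
    intro k hk
    rw [mem_range] at hk
    refine (l1_smul _ _).trans ?_
    rw [abs_div, abs_pow, abs_of_nonneg (by positivity : (0:ℝ) ≤ (k.factorial : ℝ))]
    refine mul_le_mul_of_nonneg_left ((l1_pow f k).trans ?_) (by positivity)
    exact (pow_le_pow_left₀ (l1_nonneg f) hf k).trans (pow_le_pow_right₀ hb (by omega))
  refine (sum_le_sum h1).trans ?_
  rw [← sum_mul]
  exact mul_le_mul_of_nonneg_right (Real.sum_le_exp_of_nonneg (abs_nonneg a) (K + 1)) (by positivity)

/-- the element of the algebra -/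
def Fe (κ : ℝ) (K : ℕ) (I : Finset ℕ) : DA := NK K κ (xI I) * NK K κ (yI I)

theorem ev_Fe (κ : ℝ) (K : ℕ) {I : Finset ℕ} (hI : ∀ p ∈ I, p.Prime) (t : ℝ) :
    ev t (Fe κ K I) = ((‖NK K κ (PI I (1 / 2 + t * Complex.I))‖ ^ 2 : ℝ) : ℂ) := by
  unfold Fe
  rw [map_mul, NK_map, NK_map, ev_xI, ev_yI t hI, NK_sq]

theorem Pr_prime {c T : ℝ} : ∀ p ∈ Pool.Agent.Y745.LD.Pr c T, p.Prime := by
  intro p hp
  exact (mem_filter.1 hp).2

theorem Pr_le {c T : ℝ} : ∀ p ∈ Pool.Agent.Y745.LD.Pr c T, p.Prime ∧ (p : ℝ) ≤ yc c T := by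
  intro p hp
  refine ⟨Pr_prime p hp, ?_⟩
  have h1 := (mem_filter.1 hp).1
  rw [mem_Icc] at h1
  have h2 : 0 ≤ yc c T := (Real.exp_pos _).le
  exact (Nat.le_floor_iff h2).1 h1.2

theorem V_ev (κ c A T t : ℝ) :
    V κ c A T t = (ev t (Fe κ (KA A T) (Pool.Agent.Y745.LD.Pr c T))).re := by
  rw [ev_Fe κ _ Pr_prime, Complex.ofReal_re, NK_eq]
  rfl

theorem small_o (a b : ℝ) {r δ : ℝ} (hr : 0 < r) (hδ : 0 < δ) :
    ∀ᶠ x : ℝ in atTop, a * Real.log x + b ≤ δ * x ^ r := by
  have h1 : (fun x : ℝ => a * Real.log x + b) =o[atTop] fun x : ℝ => x ^ r := by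
    refine ((isLittleO_log_rpow_atTop hr).const_mul_left a).add ?_
    rw [Asymptotics.isLittleO_const_left]
    right
    exact tendsto_norm_atTop_atTop.comp (tendsto_rpow_atTop hr)
  filter_upwards [h1.bound hδ, eventually_ge_atTop (0 : ℝ)] with x hx hx0
  rw [Real.norm_eq_abs, Real.norm_eq_abs, abs_of_nonneg (Real.rpow_nonneg hx0 r)] at hx
  exact (le_abs_self _).trans hx

theorem t_Z3 : P_Z3 := by
  intro κ c hc0 hc1
  obtain ⟨C, hC1, hlam⟩ := lam_bounds κ
  obtain ⟨M₀, hM₀, hMer⟩ := Pool.Agent.W184.NZ.Pr_bound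
  refine ⟨C + 2, fun A hA ε hε => ?_⟩
  have hA0 : 0 < A := by linarith
  obtain ⟨η, hη, havg⟩ := two_avg
  obtain ⟨X₀, hX₀⟩ := eventually_atTop.1 havg
  obtain ⟨kk, hSHM⟩ := Pool.Agent.TH883.LM_SHM.t_SHM 0 0 le_rfl zero_lt_one le_rfl
  obtain ⟨η', hη'⟩ : ∃ η' : ℝ, η' = min (η / 4) (1 / 16) := ⟨_, rfl⟩
  have hη'0 : 0 < η' := by rw [hη']; positivity
  have hη'1 : η' ≤ η / 4 := by rw [hη']; exact min_le_left _ _
  have hη'2 : η' ≤ 1 / 16 := by rw [hη']; exact min_le_right _ _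
  have hlog := Real.tendsto_log_atTop
  have hloglog := Real.tendsto_log_atTop.comp Real.tendsto_log_atTop
  have hc1' : 0 < 1 - c := by linarith
  have s2 := hlog.eventually (small_o 1 M₀ hc1' one_pos)
  have s3 := hlog.eventually (small_o A 1 hc1' hη'0)
  have s4 := hlog.eventually ((tendsto_rpow_atTop hε).eventually_ge_atTop
    (96 * C + 16 * Real.exp M₀))
  have s6 : ∀ᶠ T : ℝ in atTop, 2 * Real.exp (2 * |κ|) * Real.exp (η * Real.log 2) *
      Real.exp (-(η / 2) * Real.log T) ≤ 1 := by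
    have h1 : Tendsto (fun T : ℝ => Real.exp (-(η / 2) * Real.log T)) atTop (𝓝 0) := by
      refine Real.tendsto_exp_atBot.comp ?_
      exact hlog.const_mul_atTop_of_neg (by linarith)
    have h2 := h1.const_mul (2 * Real.exp (2 * |κ|) * Real.exp (η * Real.log 2))
    rw [mul_zero] at h2
    exact h2.eventually_le_const (by norm_num)
  have s7 := hlog.eventually ((tendsto_rpow_atTop hc0).eventually_ge_atTop (Real.log 3))
  filter_upwards [hSHM, s2, s3, s4, s6, s7, eventually_ge_atTop (2 * X₀), eventually_ge_atTop (4 : ℝ),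
    hlog.eventually_ge_atTop 4, hloglog.eventually_ge_atTop ((C + 1) * M₀),
    hloglog.eventually_ge_atTop 1] with T hShm h2 h3 h4 h6 h7 hTX hT4 hL4 hLM hLL1
  simp only [Function.comp_apply] at hLM hLL1
  obtain ⟨L, hL⟩ : ∃ L : ℝ, L = Real.log T := ⟨_, rfl⟩
  have hLLe : LL T = Real.log L := by rw [hL]; rfl
  rw [← hL] at h2 h3 h4 h6 h7 hL4 hLM hLL1
  have hT0 : 0 < T := by linarith
  have hL0 : 0 < L := by linarith
  obtain ⟨I, hI⟩ : ∃ I : Finset ℕ, I = Pool.Agent.Y745.LD.Pr c T := ⟨_, rfl⟩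
  obtain ⟨K, hK⟩ : ∃ K : ℕ, K = KA A T := ⟨_, rfl⟩
  have hIp : ∀ p ∈ I, p.Prime := by rw [hI]; exact Pr_prime
  have hIy : ∀ p ∈ I, p.Prime ∧ (p : ℝ) ≤ yc c T := by rw [hI]; exact Pr_le
  obtain ⟨s, hs⟩ : ∃ s : ℝ, s = sc c T := ⟨_, rfl⟩
  have hsv : vI I = s := by rw [hI, hs]; rfl
  have hs0 : 0 ≤ s := by rw [← hsv]; exact Pool.Agent.W184.NZ.vI_nonneg I
  have hy1 : (1 : ℝ) ≤ yc c T := Real.one_le_exp (Real.rpow_nonneg (by rw [← hL]; exact hL0.le) c)
  have hy3 : (3 : ℝ) ≤ yc c T := by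
    have : Real.exp (Real.log 3) ≤ Real.exp (L ^ c) := Real.exp_le_exp.2 h7
    rw [Real.exp_log (by norm_num)] at this
    unfold yc
    rw [← hL]
    exact this
  have hlogy : Real.log (yc c T) = L ^ c := by
    unfold yc
    rw [Real.log_exp, hL]
  have hs1 : s ≤ Real.log L + M₀ := by
    have h := hMer (yc c T) hy3
    have e1 : Pool.Agent.W184.NZ.Pr (yc c T) = s := by rw [hs]; rfl
    rw [e1, hlogy, Real.log_rpow hL0] at h
    have h' := (abs_le.1 h).2
    have : c * Real.log L ≤ 1 * Real.log L := mul_le_mul_of_nonneg_right hc1.le (by linarith)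
    linarith
  have hK1 : A * Real.log L ≤ K := by
    rw [hK, ← hLLe]
    exact Nat.le_ceil _
  have hK2 : (K : ℝ) ≤ A * Real.log L + 1 := by
    rw [hK, ← hLLe]
    refine (Nat.ceil_lt_add_one ?_).le
    rw [hLLe]
    have : 0 ≤ Real.log L := by linarith
    positivity
  obtain ⟨E, hE⟩ : ∃ E : ℝ, E = Real.exp ((2 * κ + κ ^ 2) * s) := ⟨_, rfl⟩
  have hE0 : 0 < E := by rw [hE]; exact Real.exp_pos _
  have hg1 : -1 ≤ 2 * κ + κ ^ 2 := by nlinarith [sq_nonneg (κ + 1)]
  have hEs : Real.exp (-s) ≤ E := by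
    rw [hE]
    refine Real.exp_le_exp.2 ?_
    nlinarith
  have htail : Real.exp (-(K : ℝ)) * Real.exp (C * vI I) ≤ E := by
    rw [← Real.exp_add, hsv, hE]
    refine Real.exp_le_exp.2 ?_
    have q1 : (C + 1) * s ≤ (C + 1) * (Real.log L + M₀) :=
      mul_le_mul_of_nonneg_left hs1 (by linarith)
    have q2 : (C + 2) * Real.log L ≤ A * Real.log L :=
      mul_le_mul_of_nonneg_right hA (by linarith)
    have q3 : -1 * s ≤ (2 * κ + κ ^ 2) * s := mul_le_mul_of_nonneg_right hg1 hs0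
    linarith [mul_add (C + 1) (Real.log L) M₀]
  obtain ⟨hl1, hl2⟩ := hlam I hIp K
  rw [hsv, ← hE] at hl1 hl2
  rw [hsv] at htail
  have hb1 : |lam w1 (Fe κ K I)| ≤ 2 * C * E := by
    refine hl1.trans ?_
    have : C * (E + Real.exp (-(K : ℝ)) * Real.exp (C * s)) ≤ C * (E + E) :=
      mul_le_mul_of_nonneg_left (by linarith) (by linarith)
    linarith
  have hsum : ∑ p ∈ I, Real.log p / p ≤ L := by
    have q1 : ∑ p ∈ I, Real.log p / p ≤ L ^ c * s := by
      rw [← hsv]
      unfold vI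
      rw [mul_sum]
      refine sum_le_sum fun p hp => ?_
      have hp0 : (0 : ℝ) < p := by exact_mod_cast (hIp p hp).pos
      have : Real.log p ≤ L ^ c := by
        rw [← hlogy]
        exact Real.log_le_log hp0 (hIy p hp).2
      rw [mul_one_div]
      exact div_le_div_of_nonneg_right this hp0.le
    have q2 : L ^ c * s ≤ L ^ c * (1 * L ^ (1 - c)) := by
      refine mul_le_mul_of_nonneg_left ?_ (Real.rpow_nonneg hL0.le c)
      linarith
    have q3 : L ^ c * (1 * L ^ (1 - c)) = L := by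
      rw [one_mul, ← Real.rpow_add hL0]
      have : c + (1 - c) = 1 := by ring
      rw [this, Real.rpow_one]
    linarith
  have hsum0 : 0 ≤ ∑ p ∈ I, Real.log p / p :=
    sum_nonneg fun p _ => div_nonneg (Real.log_natCast_nonneg p) (Nat.cast_nonneg p)
  have hb2 : |lam wl (Fe κ K I)| ≤ 2 * C * E * L := by
    refine hl2.trans ?_
    have q1 : C * (E + Real.exp (-(K : ℝ)) * Real.exp (C * s)) ≤ 2 * C * E := by
      have : C * (E + Real.exp (-(K : ℝ)) * Real.exp (C * s)) ≤ C * (E + E) :=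
        mul_le_mul_of_nonneg_left (by linarith) (by linarith)
      linarith
    exact mul_le_mul q1 hsum hsum0 (by positivity)
  -- sizes
  have hyK : (yc c T) ^ K ≤ Real.exp (η' * L) := by
    have e1 : (yc c T) ^ K = Real.exp (K * L ^ c) := by
      unfold yc
      rw [← Real.exp_nat_mul, ← hL]
    rw [e1]
    refine Real.exp_le_exp.2 ?_
    calc (K : ℝ) * L ^ c ≤ (η' * L ^ (1 - c)) * L ^ c := by
          refine mul_le_mul_of_nonneg_right (hK2.trans h3) (Real.rpow_nonneg hL0.le c)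
      _ = η' * L := by
          rw [mul_assoc, ← Real.rpow_add hL0]
          have : 1 - c + c = 1 := by ring
          rw [this, Real.rpow_one]
  have hBd : Bd ((yc c T) ^ K * (yc c T) ^ K) (Fe κ K I) :=
    (NK_Bd hy1 (xI_Bd hIy) K κ).mul (NK_Bd hy1 (yI_Bd hIy) K κ)
  have hl1F : l1 (Fe κ K I) ≤ Real.exp (2 * |κ|) * Real.exp (η / 2 * L) := by
    have hy0 : 0 ≤ yc c T := by linarith
    have q1 := NK_l1' hy1 (xI_l1 hy0 hIy) K κ
    have q2 := NK_l1' hy1 (yI_l1 hy0 hIy) K κ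
    have q3 : Real.exp |κ| * (yc c T) ^ K ≤ Real.exp |κ| * Real.exp (η / 4 * L) := by
      refine mul_le_mul_of_nonneg_left (hyK.trans (Real.exp_le_exp.2 ?_)) (Real.exp_pos _).le
      exact mul_le_mul_of_nonneg_right hη'1 hL0.le
    refine (l1_mul _ _).trans ?_
    calc l1 (NK K κ (xI I)) * l1 (NK K κ (yI I)) ≤
          (Real.exp |κ| * Real.exp (η / 4 * L)) * (Real.exp |κ| * Real.exp (η / 4 * L)) :=
          mul_le_mul (q1.trans q3) (q2.trans q3) (l1_nonneg _) (by positivity)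
      _ = _ := by
          rw [← Real.exp_add, ← Real.exp_add, ← Real.exp_add]
          congr 1
          ring
  have hVc : Continuous fun t => V κ c A T t := by
    have := ev_re_cont hBd
    rw [hK, hI] at this
    refine this.congr fun t => ?_
    rw [V_ev]
  have hV0 : ∀ t, 0 ≤ V κ c A T t := fun t => by unfold V; positivity
  -- the windows
  have hwin : ∀ x ∈ Set.Icc (T / 2) (4 * T),
      IntegrableOn (fun t => om (kk T) ((kk T : ℝ) / x) t *
        (V κ c A T t * ‖riemannZeta (1 / 2 + t * Complex.I)‖ ^ 2)) (Set.Ioi 0) ∧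
      ∫ t in Set.Ioi (0:ℝ), om (kk T) ((kk T : ℝ) / x) t *
        (V κ c A T t * ‖riemannZeta (1 / 2 + t * Complex.I)‖ ^ 2) ≤ 6 * C * L * E + 1 := by
    intro x hx
    have hRx := hShm.1 x hx
    have hx0 : 0 < x := by linarith [hx.1]
    have hlx1 : L - Real.log 2 ≤ Real.log x := by
      rw [hL, ← Real.log_div hT0.ne' two_ne_zero]
      exact Real.log_le_log (by positivity) hx.1
    have hlog2 : Real.log 2 ≤ 1 := by
      have := Real.log_two_lt_d9
      linarith
    have hlog4 : Real.log x ≤ L + 2 := by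
      have e1 : Real.log x ≤ Real.log (4 * T) := Real.log_le_log hx0 hx.2
      rw [Real.log_mul (by norm_num) hT0.ne', ← hL] at e1
      have e2 : Real.log 4 ≤ 2 := by
        have : (4 : ℝ) = 2 ^ 2 := by norm_num
        rw [this, Real.log_pow]
        push_cast
        linarith
      linarith
    have hk1 : 1 ≤ kk T := by
      have h0 := hRx.1
      have h1 : 0 < Real.log x := by linarith
      have h2 : (0:ℝ) < kk T := lt_of_lt_of_le (by positivity) h0
      exact_mod_cast h2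
    have hδ : 0 < (kk T : ℝ) / x := by
      have : (0:ℝ) < kk T := by exact_mod_cast hk1
      positivity
    have hBx : Bd (x ^ ((1:ℝ) / 4)) (Fe κ K I) := by
      refine hBd.mono ?_
      rw [Real.rpow_def_of_pos hx0]
      calc (yc c T) ^ K * (yc c T) ^ K ≤ Real.exp (η' * L) * Real.exp (η' * L) :=
            mul_le_mul hyK hyK (by positivity) (Real.exp_pos _).le
        _ = Real.exp (η' * L + η' * L) := by rw [Real.exp_add]
        _ ≤ Real.exp (Real.log x * (1 / 4)) := by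
            refine Real.exp_le_exp.2 ?_
            have : η' * L ≤ 1 / 16 * L := mul_le_mul_of_nonneg_right hη'2 hL0.le
            linarith
    have hfun : ∀ t : ℝ, om (kk T) ((kk T : ℝ) / x) t *
        (V κ c A T t * ‖riemannZeta (1 / 2 + t * Complex.I)‖ ^ 2) =
        wz (kk T) x t * (ev t (Fe κ K I)).re := by
      intro t
      rw [V_ev, ← hK, ← hI]
      unfold wz cl
      ring
    simp_rw [hfun]
    refine ⟨wz_int (kk T) hδ (ev_re_cont hBx) (ev_re_le hBx), ?_⟩
    have hm := hX₀ x (by linarith [hx.1]) (kk T) hRx (Fe κ K I) hBx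
    have hyf := yf_bound hk1 hx0
    have hyf' : |Real.log (Yf (kk T) x) + Ck (kk T)| ≤ 2 * L := by
      have h1 := abs_le.1 hyf
      rw [abs_le]
      constructor <;> linarith [h1.1, h1.2]
    have hmain : |(Real.log (Yf (kk T) x) + Ck (kk T)) * lam w1 (Fe κ K I) - lam wl (Fe κ K I)| ≤
        6 * C * L * E := by
      refine (abs_sub _ _).trans ?_
      rw [abs_mul]
      have q1 : |Real.log (Yf (kk T) x) + Ck (kk T)| * |lam w1 (Fe κ K I)| ≤
          (2 * L) * (2 * C * E) := mul_le_mul hyf' hb1 (abs_nonneg _) (by linarith)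
      calc _ ≤ (2 * L) * (2 * C * E) + 2 * C * E * L := add_le_add q1 hb2
        _ = _ := by ring
    have herr : 2 * x ^ (-η) * l1 (Fe κ K I) ≤ 1 := by
      have q1 : x ^ (-η) ≤ Real.exp (η * Real.log 2) * Real.exp (-η * L) := by
        rw [Real.rpow_def_of_pos hx0, ← Real.exp_add]
        refine Real.exp_le_exp.2 ?_
        nlinarith
      calc 2 * x ^ (-η) * l1 (Fe κ K I) ≤ 2 * (Real.exp (η * Real.log 2) * Real.exp (-η * L)) *
            (Real.exp (2 * |κ|) * Real.exp (η / 2 * L)) :=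
            mul_le_mul (mul_le_mul_of_nonneg_left q1 zero_le_two) hl1F (l1_nonneg _) (by positivity)
        _ = 2 * Real.exp (2 * |κ|) * Real.exp (η * Real.log 2) *
              (Real.exp (-η * L) * Real.exp (η / 2 * L)) := by ring
        _ = 2 * Real.exp (2 * |κ|) * Real.exp (η * Real.log 2) * Real.exp (-(η / 2) * L) := by
            rw [← Real.exp_add]
            congr 2
            ring
        _ ≤ 1 := h6
    have h1 := (abs_le.1 hm).2
    have h2' := (abs_le.1 hmain).2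
    linarith
  have hfm : Measurable fun t : ℝ => V κ c A T t * ‖riemannZeta (1 / 2 + t * Complex.I)‖ ^ 2 := by
    have hz : Continuous Xz := Xz_cont
    have : (fun t : ℝ => V κ c A T t * ‖riemannZeta (1 / 2 + t * Complex.I)‖ ^ 2) =
        fun t => V κ c A T t * Xz t ^ 2 := rfl
    rw [this]
    exact (hVc.mul (hz.pow 2)).measurable
  have hH : T / Real.log T ^ (0 : ℝ) ≤ T := by rw [Real.rpow_zero, div_one]
  have hfin := (hShm.2 T hH le_rfl).2
    (fun t => V κ c A T t * ‖riemannZeta (1 / 2 + t * Complex.I)‖ ^ 2) hfm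
    (fun t => by have := hV0 t; positivity) (6 * C * L * E + 1) (by positivity) hwin
  have hint : ∫ t in T..(2 * T), V κ c A T t * ‖riemannZeta (1 / 2 + t * Complex.I)‖ ^ 2 =
      ∫ t in Set.Icc T (T + T), V κ c A T t * ‖riemannZeta (1 / 2 + t * Complex.I)‖ ^ 2 := by
    rw [intervalIntegral.integral_of_le (by linarith), integral_Icc_eq_integral_Ioc, two_mul]
  rw [hint]
  refine hfin.trans ?_
  rw [← hL, ← hs, ← hE]
  have hLε : L ^ (1 + ε) = L * L ^ ε := by rw [Real.rpow_add hL0, Real.rpow_one]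
  rw [hLε]
  have f1 : 96 * C * (L * E) ≤ L ^ ε * (L * E) := by
    refine mul_le_mul_of_nonneg_right ?_ (by positivity)
    have := Real.exp_pos M₀
    linarith
  have f2 : 1 ≤ Real.exp M₀ * (L * E) := by
    have q1 : Real.exp (-(Real.log L + M₀)) ≤ E := (Real.exp_le_exp.2 (by linarith)).trans hEs
    have q2 : Real.exp (-(Real.log L + M₀)) * (Real.exp M₀ * L) = 1 := by
      rw [← mul_assoc, ← Real.exp_add]
      have : -(Real.log L + M₀) + M₀ = -Real.log L := by ring
      rw [this, Real.exp_neg, Real.exp_log hL0, inv_mul_cancel₀ hL0.ne']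
    calc (1 : ℝ) = Real.exp (-(Real.log L + M₀)) * (Real.exp M₀ * L) := q2.symm
      _ ≤ E * (Real.exp M₀ * L) := mul_le_mul_of_nonneg_right q1 (by positivity)
      _ = _ := by ring
  have f3 : 16 * Real.exp M₀ * (L * E) ≤ L ^ ε * (L * E) := by
    refine mul_le_mul_of_nonneg_right ?_ (by positivity)
    linarith
  have f4 : 8 * (6 * C * L * E + 1) ≤ L * L ^ ε * E := by
    have e1 : L * L ^ ε * E = L ^ ε * (L * E) := by ring
    rw [e1]
    linarith
  calc 8 * (T * (6 * C * L * E + 1)) = T * (8 * (6 * C * L * E + 1)) := by ring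
    _ ≤ T * (L * L ^ ε * E) := mul_le_mul_of_nonneg_left f4 hT0.le
    _ = _ := by ring

end

end Pool.Agent.Y674.LD
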