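import Pool.Agent.W184.NZ.Size

set_option autoImplicit false

/-! LD-Z3, part a: truncated exponentials of sums over primes in the algebra of Dirichlet monomials. -/

namespace Pool.Agent.Y674.LD

open Finset MonoidAlgebra
open Pool.Agent.W184.NZ

noncomputable section

/-- binomial theorem for truncated exponentials -/
theorem NK_add {B : Type*} [CommRing B] [Algebra ℝ B] (K : ℕ) (a : ℝ) (x y : B) :
    NK K a (x + y) =
      ∑ i ∈ range (K + 1), ((a ^ i / (i.factorial : ℝ)) • x ^ i) * NK (K - i) a y := by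
  unfold NK
  have h1 : ∀ k ∈ range (K + 1), (a ^ k / (k.factorial : ℝ)) • (x + y) ^ k =
      ∑ i ∈ range (k + 1), ((a ^ i / (i.factorial : ℝ)) • x ^ i) *
        ((a ^ (k - i) / ((k - i).factorial : ℝ)) • y ^ (k - i)) := by
    intro k _
    rw [add_pow, smul_sum]
    refine sum_congr rfl fun i hi => ?_
    rw [mem_range] at hi
    have hik : i ≤ k := by omega
    have e1 : (k.choose i : ℝ) = k.factorial / (i.factorial * (k - i).factorial) :=
      Nat.cast_choose ℝ hik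
    have e2 : a ^ k = a ^ i * a ^ (k - i) := by rw [← pow_add]; congr 1; omega
    have h0 : (k.factorial : ℝ) ≠ 0 := by positivity
    have h01 : (i.factorial : ℝ) ≠ 0 := by positivity
    have h02 : ((k - i).factorial : ℝ) ≠ 0 := by positivity
    have e3 : x ^ i * y ^ (k - i) * (k.choose i : B) = (k.choose i : ℝ) • (x ^ i * y ^ (k - i)) := by
      rw [Algebra.smul_def, map_natCast, mul_comm]
    rw [e3, smul_smul, smul_mul_smul_comm, e1, e2]
    congr 1
    field_simp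
  rw [sum_congr rfl h1, sum_comm' (s' := fun i => Ico i (K + 1)) (t' := range (K + 1))]
  · refine sum_congr rfl fun i hi => ?_
    rw [mem_range] at hi
    rw [← mul_sum, sum_Ico_eq_sum_range]
    congr 1
    have e : K + 1 - i = K - i + 1 := by omega
    rw [e]
    refine sum_congr rfl fun j _ => ?_
    rw [Nat.add_sub_cancel_left]
  · intro k i
    simp only [mem_range, mem_Ico]
    omega

/-- the weight of the prime `p` -/
def wp (p : ℕ) (x : ℕ × ℕ) : ℝ :=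
  w1 x * |(x.1.factorization p : ℝ) - (x.2.factorization p : ℝ)|

theorem log_eq {I : Finset ℕ} {n : ℕ} (h : ∀ p : ℕ, p.Prime → p ∣ n → p ∈ I) :
    Real.log n = ∑ p ∈ I, (n.factorization p : ℝ) * Real.log p := by
  rw [Real.log_nat_eq_sum_factorization, Finsupp.sum_of_support_subset _ (s := I)]
  · intro p hp
    rw [Nat.support_factorization] at hp
    exact h p (Nat.prime_of_mem_primeFactors hp) (Nat.dvd_of_mem_primeFactors hp)
  · intro p _
    simp

theorem wl_eq {I : Finset ℕ} {x : ℕ × ℕ} (hx : x ∈ MI I) :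
    wl x = ∑ p ∈ I, Real.log p * wp p x := by
  obtain ⟨h1, h2, h3⟩ := hx
  have g1 : 0 < Nat.gcd x.1 x.2 := Nat.gcd_pos_of_pos_left _ (Nat.pos_of_ne_zero h1)
  have a1 : (x.1 : ℝ) ≠ 0 := by exact_mod_cast h1
  have a2 : (x.2 : ℝ) ≠ 0 := by exact_mod_cast h2
  have a3 : (Nat.gcd x.1 x.2 : ℝ) ≠ 0 := by exact_mod_cast g1.ne'
  unfold wl
  rw [Real.log_div (mul_ne_zero a1 a2) (pow_ne_zero 2 a3), Real.log_mul a1 a2, Real.log_pow,
    log_eq (I := I) (n := x.1) (fun p hp hd => h3 p hp (Or.inl hd)),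
    log_eq (I := I) (n := x.2) (fun p hp hd => h3 p hp (Or.inr hd)),
    log_eq (I := I) (n := Nat.gcd x.1 x.2)
      (fun p hp hd => h3 p hp (Or.inl (hd.trans (Nat.gcd_dvd_left _ _)))),
    ← sum_add_distrib, mul_sum, ← sum_sub_distrib, mul_sum]
  refine sum_congr rfl fun p _ => ?_
  rw [Nat.factorization_gcd h1 h2, Finsupp.inf_apply]
  unfold wp
  have e : |(x.1.factorization p : ℝ) - (x.2.factorization p : ℝ)| =
      x.1.factorization p + x.2.factorization p -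
        2 * ((x.1.factorization p ⊓ x.2.factorization p : ℕ) : ℝ) := by
    rcases le_total (x.1.factorization p) (x.2.factorization p) with h | h
    · have h' : (x.1.factorization p : ℝ) ≤ x.2.factorization p := by exact_mod_cast h
      rw [inf_eq_left.2 h, abs_of_nonpos (by linarith)]
      ring
    · have h' : (x.2.factorization p : ℝ) ≤ x.1.factorization p := by exact_mod_cast h
      rw [inf_eq_right.2 h, abs_of_nonneg (by linarith)]
      ring
  rw [e]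
  push_cast
  ring

theorem lam_wl {I : Finset ℕ} {f : DA} (hf : f ∈ SA (MI I)) :
    lam wl f = ∑ p ∈ I, Real.log p * lam (wp p) f := by
  simp only [lam_apply, Finsupp.sum]
  simp_rw [mul_sum]
  rw [sum_comm]
  refine sum_congr rfl fun x hx => ?_
  rw [wl_eq (hf x hx), mul_sum]
  refine sum_congr rfl fun p _ => ?_
  ring

theorem lam_mul2 {w v u : ℕ × ℕ → ℝ} {f g : DA}
    (h : ∀ x ∈ f.coeff.support, ∀ y ∈ g.coeff.support, w (x * y) = v x * u y) :
    lam w (f * g) = lam v f * lam u g := by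
  rw [lam_mul_gen, lam_apply, lam_apply, Finsupp.sum, Finsupp.sum, sum_mul_sum]
  refine sum_congr rfl fun x hx => sum_congr rfl fun y hy => ?_
  rw [h x hx y hy]; ring

theorem w1_mul' {I J : Finset ℕ} (hIJ : Disjoint I J) {x y : ℕ × ℕ} (hx : x ∈ MI I)
    (hy : y ∈ MI J) : w1 (x * y) = w1 x * w1 y := by
  have h := MI_coprime hIJ hx hy
  exact w1_mul h.2.1 h.2.2.1 h.2.2.2

theorem wp_mul {I J : Finset ℕ} (hIJ : Disjoint I J) {p : ℕ} (hp : p.Prime) (hpI : p ∈ I)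
    {x y : ℕ × ℕ} (hx : x ∈ MI I) (hy : y ∈ MI J) : wp p (x * y) = wp p x * w1 y := by
  unfold wp
  rw [w1_mul' hIJ hx hy, Prod.fst_mul, Prod.snd_mul, Nat.factorization_mul hx.1 hy.1,
    Nat.factorization_mul hx.2.1 hy.2.1, Finsupp.add_apply, Finsupp.add_apply]
  have hpJ : p ∉ J := Finset.disjoint_left.1 hIJ hpI
  have e1 : y.1.factorization p = 0 :=
    Nat.factorization_eq_zero_of_not_dvd fun h => hpJ (hy.2.2 p hp (Or.inl h))
  have e2 : y.2.factorization p = 0 :=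
    Nat.factorization_eq_zero_of_not_dvd fun h => hpJ (hy.2.2 p hp (Or.inr h))
  rw [e1, e2, add_zero, add_zero]
  ring

theorem lam_abs_le {w : ℕ × ℕ → ℝ} {f : DA} {e : ℝ} (h : ∀ x ∈ f.coeff.support, |w x| ≤ e) :
    |lam w f| ≤ e * l1 f := by
  rw [lam_apply, Finsupp.sum, l1, mul_sum]
  refine (abs_sum_le_sum_abs _ _).trans (sum_le_sum fun x hx => ?_)
  rw [abs_mul, mul_comm]
  exact mul_le_mul_of_nonneg_right (h x hx) (abs_nonneg _)

theorem w1_le_one {x : ℕ × ℕ} (h1 : x.1 ≠ 0) (h2 : x.2 ≠ 0) : w1 x ≤ 1 := by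
  unfold w1
  have a1 : (0 : ℝ) < x.1 := by exact_mod_cast Nat.pos_of_ne_zero h1
  have a2 : (1 : ℝ) ≤ x.2 := by exact_mod_cast Nat.pos_of_ne_zero h2
  have a3 : (Nat.gcd x.1 x.2 : ℝ) ≤ x.1 := by
    exact_mod_cast Nat.gcd_le_left _ (Nat.pos_of_ne_zero h1)
  rw [div_le_one (by positivity)]
  nlinarith

theorem wp_le {p n : ℕ} (hp : p.Prime) {x : ℕ × ℕ} (h1 : x.1 ≠ 0) (h2 : x.2 ≠ 0)
    (h3 : x.1.factorization p ≤ n) (h4 : x.2.factorization p ≤ n) : |wp p x| ≤ n / p := by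
  have hp0 : (0 : ℝ) < p := by exact_mod_cast hp.pos
  unfold wp
  rw [abs_mul, abs_abs, abs_of_nonneg (w1_nonneg x)]
  by_cases h : x.1.factorization p = x.2.factorization p
  · rw [h, sub_self, abs_zero, mul_zero]
    positivity
  have h5 : |(x.1.factorization p : ℝ) - (x.2.factorization p : ℝ)| ≤ n := by
    have h3' : (x.1.factorization p : ℝ) ≤ n := by exact_mod_cast h3
    have h4' : (x.2.factorization p : ℝ) ≤ n := by exact_mod_cast h4
    have h6 : (0 : ℝ) ≤ x.1.factorization p := Nat.cast_nonneg _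
    have h7 : (0 : ℝ) ≤ x.2.factorization p := Nat.cast_nonneg _
    rw [abs_le]
    constructor <;> linarith
  have hdvd : p ∣ Nat.lcm x.1 x.2 := by
    by_contra hc
    have e1 : x.1.factorization p = 0 :=
      Nat.factorization_eq_zero_of_not_dvd fun h => hc (h.trans (Nat.dvd_lcm_left _ _))
    have e2 : x.2.factorization p = 0 :=
      Nat.factorization_eq_zero_of_not_dvd fun h => hc (h.trans (Nat.dvd_lcm_right _ _))
    exact h (e1.trans e2.symm)
  have hlcm : p ≤ Nat.lcm x.1 x.2 := Nat.le_of_dvd (Nat.pos_of_ne_zero (Nat.lcm_ne_zero h1 h2)) hdvd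
  have hw : w1 x ≤ 1 / p := by
    unfold w1
    have e1 : ((x.1 : ℝ) * x.2) = Nat.gcd x.1 x.2 * Nat.lcm x.1 x.2 := by
      exact_mod_cast (Nat.gcd_mul_lcm x.1 x.2).symm
    have g1 : (0 : ℝ) < Nat.gcd x.1 x.2 := by
      exact_mod_cast Nat.gcd_pos_of_pos_left _ (Nat.pos_of_ne_zero h1)
    have g2 : (p : ℝ) ≤ Nat.lcm x.1 x.2 := by exact_mod_cast hlcm
    rw [e1, div_le_div_iff₀ (by positivity) hp0, one_mul]
    exact mul_le_mul_of_nonneg_left g2 g1.le
  calc w1 x * |(x.1.factorization p : ℝ) - (x.2.factorization p : ℝ)| ≤ 1 / p * n :=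
        mul_le_mul hw h5 (abs_nonneg _) (by positivity)
    _ = n / p := by ring

/-- bounded exponents of `p` -/
def Dg (p i j : ℕ) (f : DA) : Prop :=
  ∀ x ∈ f.coeff.support, (x.1 ≠ 0 ∧ x.2 ≠ 0) ∧ x.1.factorization p ≤ i ∧ x.2.factorization p ≤ j

theorem Dg.mul {p i j i' j' : ℕ} {f g : DA} (hf : Dg p i j f) (hg : Dg p i' j' g) :
    Dg p (i + i') (j + j') (f * g) := by
  classical
  intro x hx
  have := support_coeff_mul_subset f g hx
  rw [Finset.mem_mul] at this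
  obtain ⟨y, hy, z, hz, rfl⟩ := this
  have h1 := hf y hy
  have h2 := hg z hz
  refine ⟨⟨mul_ne_zero h1.1.1 h2.1.1, mul_ne_zero h1.1.2 h2.1.2⟩, ?_, ?_⟩
  · rw [Prod.fst_mul, Nat.factorization_mul h1.1.1 h2.1.1, Finsupp.add_apply]
    exact add_le_add h1.2.1 h2.2.1
  · rw [Prod.snd_mul, Nat.factorization_mul h1.1.2 h2.1.2, Finsupp.add_apply]
    exact add_le_add h1.2.2 h2.2.2

theorem Dg.one {p : ℕ} : Dg p 0 0 1 := by
  intro x hx
  rw [MonoidAlgebra.one_def, coeff_single] at hx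
  have := Finsupp.support_single_subset hx
  rw [Finset.mem_singleton] at this
  rw [this]
  simp

theorem Dg.pow {p i j : ℕ} {f : DA} (hf : Dg p i j f) (k : ℕ) : Dg p (k * i) (k * j) (f ^ k) := by
  induction k with
  | zero => rw [pow_zero, zero_mul, zero_mul]; exact Dg.one
  | succ k ih =>
    rw [pow_succ, add_mul, add_mul, one_mul, one_mul]
    exact ih.mul hf

theorem Dg.sum {p i j : ℕ} {ι : Type*} {s : Finset ι} {f : ι → DA} (h : ∀ a ∈ s, Dg p i j (f a)) :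
    Dg p i j (∑ a ∈ s, f a) := by
  classical
  induction s using Finset.induction_on with
  | empty => intro x hx; simp at hx
  | insert a s ha ih =>
    rw [sum_insert ha]
    intro x hx
    rw [coeff_add] at hx
    have := Finsupp.support_add hx
    rw [Finset.mem_union] at this
    rcases this with h' | h'
    · exact h a (mem_insert_self _ _) x h'
    · exact ih (fun b hb => h b (mem_insert_of_mem hb)) x h'

theorem fac_prime_le {p q : ℕ} (hq : q.Prime) : q.factorization p ≤ 1 := by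
  rw [hq.factorization]
  rw [Finsupp.single_apply]
  split_ifs <;> omega

theorem Dg_xI {p : ℕ} {I : Finset ℕ} (hI : ∀ q ∈ I, q.Prime) : Dg p 1 0 (xI I) := by
  refine Dg.sum fun q hq x hx => ?_
  rw [coeff_single] at hx
  have := Finsupp.support_single_subset hx
  rw [Finset.mem_singleton] at this
  rw [this]
  refine ⟨⟨(hI q hq).ne_zero, one_ne_zero⟩, fac_prime_le (hI q hq), by simp⟩

theorem Dg_yI {p : ℕ} {I : Finset ℕ} (hI : ∀ q ∈ I, q.Prime) : Dg p 0 1 (yI I) := by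
  refine Dg.sum fun q hq x hx => ?_
  rw [coeff_single] at hx
  have := Finsupp.support_single_subset hx
  rw [Finset.mem_singleton] at this
  rw [this]
  refine ⟨⟨one_ne_zero, (hI q hq).ne_zero⟩, by simp, fac_prime_le (hI q hq)⟩

theorem l1_xy {I : Finset ℕ} (i j : ℕ) : l1 (xI I ^ i * yI I ^ j) ≤ (I.card : ℝ) ^ (i + j) := by
  have hx : l1 (xI I) ≤ I.card := (l1_sum _ _).trans (le_of_eq (by simp [l1_single]))
  have hy : l1 (yI I) ≤ I.card := (l1_sum _ _).trans (le_of_eq (by simp [l1_single]))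
  rw [pow_add]
  refine (l1_mul _ _).trans (mul_le_mul ((l1_pow _ _).trans ?_) ((l1_pow _ _).trans ?_) (l1_nonneg _)
    (by positivity))
  · exact pow_le_pow_left₀ (l1_nonneg _) hx _
  · exact pow_le_pow_left₀ (l1_nonneg _) hy _

theorem w1_xy {I : Finset ℕ} (hI : ∀ q ∈ I, q.Prime) {N : ℝ} (hN : (I.card : ℝ) ≤ N) (i j : ℕ) :
    |lam w1 (xI I ^ i * yI I ^ j)| ≤ 1 * (2 * N) ^ (i + j) := by
  have h1 : Dg 2 (i * 1 + j * 0) (i * 0 + j * 1) (xI I ^ i * yI I ^ j) :=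
    ((Dg_xI hI).pow i).mul ((Dg_yI hI).pow j)
  have h2 : |lam w1 (xI I ^ i * yI I ^ j)| ≤ 1 * l1 (xI I ^ i * yI I ^ j) := by
    refine lam_abs_le fun x hx => ?_
    rw [abs_of_nonneg (w1_nonneg x)]
    exact w1_le_one (h1 x hx).1.1 (h1 x hx).1.2
  refine h2.trans (mul_le_mul_of_nonneg_left ((l1_xy i j).trans ?_) zero_le_one)
  have h0 : (0 : ℝ) ≤ I.card := Nat.cast_nonneg _
  exact pow_le_pow_left₀ h0 (by linarith) _

theorem wp_xy {I : Finset ℕ} (hI : ∀ q ∈ I, q.Prime) {N : ℝ} (hN : (I.card : ℝ) ≤ N) {p : ℕ}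
    (hp : p.Prime) (i j : ℕ) :
    |lam (wp p) (xI I ^ i * yI I ^ j)| ≤ (1 / p) * (2 * N) ^ (i + j) := by
  have hp0 : (0 : ℝ) < p := by exact_mod_cast hp.pos
  have h1 : Dg p (i * 1 + j * 0) (i * 0 + j * 1) (xI I ^ i * yI I ^ j) :=
    ((Dg_xI hI).pow i).mul ((Dg_yI hI).pow j)
  have h2 : |lam (wp p) (xI I ^ i * yI I ^ j)| ≤ ((i + j : ℕ) : ℝ) / p * l1 (xI I ^ i * yI I ^ j) := by
    refine lam_abs_le fun x hx => ?_
    have h3 := h1 x hx
    refine wp_le hp h3.1.1 h3.1.2 ?_ ?_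
    · have := h3.2.1; omega
    · have := h3.2.2; omega
  have h0 : (0 : ℝ) ≤ I.card := Nat.cast_nonneg _
  have h3 : ((i + j : ℕ) : ℝ) ≤ 2 ^ (i + j) := by
    exact_mod_cast (Nat.lt_two_pow_self (n := i + j)).le
  calc |lam (wp p) (xI I ^ i * yI I ^ j)| ≤ ((i + j : ℕ) : ℝ) / p * l1 (xI I ^ i * yI I ^ j) := h2
    _ ≤ 2 ^ (i + j) / p * N ^ (i + j) := by
        refine mul_le_mul (div_le_div_of_nonneg_right h3 hp0.le) ((l1_xy i j).trans ?_)
          (l1_nonneg _) (by positivity)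
        exact pow_le_pow_left₀ h0 hN _
    _ = (1 / p) * (2 * N) ^ (i + j) := by rw [mul_pow]; ring

/-- splitting off the primes of `I₁` -/
theorem split_bound {w w' : ℕ × ℕ → ℝ} {I₁ I₂ : Finset ℕ} {κ M n E F : ℝ}
    (hd : Disjoint I₁ I₂) (h1 : ∀ p ∈ I₁, p.Prime) (h2 : ∀ p ∈ I₂, p.Prime)
    (hw : ∀ x ∈ MI I₁, ∀ y ∈ MI I₂, w (x * y) = w' x * w1 y) (hM : 0 ≤ M) (hn : 0 ≤ n)
    (hE : 0 ≤ E) (hF : 0 ≤ F) (hb : ∀ i j, |lam w' (xI I₁ ^ i * yI I₁ ^ j)| ≤ M * n ^ (i + j))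
    (hB : ∀ K₁ K₂ : ℕ, |lam w1 (NK K₁ κ (xI I₂) * NK K₂ κ (yI I₂))| ≤
      E + (Real.exp (-(K₁ : ℝ)) + Real.exp (-(K₂ : ℝ))) * F) (K : ℕ) :
    |lam w (NK K κ (xI (I₁ ∪ I₂)) * NK K κ (yI (I₁ ∪ I₂)))| ≤
      M * Real.exp (Real.exp 1 * (|κ| * n)) ^ 2 * (E + 2 * Real.exp (-(K : ℝ)) * F) := by
  have ex : xI (I₁ ∪ I₂) = xI I₁ + xI I₂ := sum_union hd
  have ey : yI (I₁ ∪ I₂) = yI I₁ + yI I₂ := sum_union hd
  have hA : ∀ (K : ℕ), NK K κ (xI I₂) ∈ SA (MI I₂) := fun K => NK_mem (xI_mem h2) K κ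
  have hA' : ∀ (K : ℕ), NK K κ (yI I₂) ∈ SA (MI I₂) := fun K => NK_mem (yI_mem h2) K κ
  have e1 : lam w (NK K κ (xI (I₁ ∪ I₂)) * NK K κ (yI (I₁ ∪ I₂))) =
      ∑ i ∈ range (K + 1), ∑ j ∈ range (K + 1), (κ ^ i / (i.factorial : ℝ)) *
        (κ ^ j / (j.factorial : ℝ)) * (lam w' (xI I₁ ^ i * yI I₁ ^ j) *
          lam w1 (NK (K - i) κ (xI I₂) * NK (K - j) κ (yI I₂))) := by
    rw [ex, ey, NK_add, NK_add, sum_mul_sum, map_sum]
    refine sum_congr rfl fun i _ => ?_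
    rw [map_sum]
    refine sum_congr rfl fun j _ => ?_
    have e2 : (κ ^ i / (i.factorial : ℝ)) • xI I₁ ^ i * NK (K - i) κ (xI I₂) *
        ((κ ^ j / (j.factorial : ℝ)) • yI I₁ ^ j * NK (K - j) κ (yI I₂)) =
        ((κ ^ i / (i.factorial : ℝ)) * (κ ^ j / (j.factorial : ℝ))) •
          ((xI I₁ ^ i * yI I₁ ^ j) * (NK (K - i) κ (xI I₂) * NK (K - j) κ (yI I₂))) := by
      rw [mul_mul_mul_comm, smul_mul_smul_comm, smul_mul_assoc]
    rw [e2, map_smul, smul_eq_mul]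
    congr 1
    refine lam_mul2 fun x hx y hy => hw x ?_ y ?_
    · exact (Subalgebra.mul_mem _ (Subalgebra.pow_mem _ (xI_mem h1) i)
        (Subalgebra.pow_mem _ (yI_mem h1) j) : _ ∈ SA (MI I₁)) x hx
    · exact (Subalgebra.mul_mem _ (hA (K - i)) (hA' (K - j)) : _ ∈ SA (MI I₂)) y hy
  rw [e1]
  have e3 : ∀ i ∈ range (K + 1), ∀ j ∈ range (K + 1), |(κ ^ i / (i.factorial : ℝ)) *
        (κ ^ j / (j.factorial : ℝ)) * (lam w' (xI I₁ ^ i * yI I₁ ^ j) *
          lam w1 (NK (K - i) κ (xI I₂) * NK (K - j) κ (yI I₂)))| ≤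
      ((Real.exp 1 * (|κ| * n)) ^ i / (i.factorial : ℝ)) * ((Real.exp 1 * (|κ| * n)) ^ j /
        (j.factorial : ℝ)) * (M * (E + 2 * Real.exp (-(K : ℝ)) * F)) := by
    intro i hi j hj
    rw [mem_range] at hi hj
    have hci : ((K - i : ℕ) : ℝ) = K - i := by
      rw [Nat.cast_sub (by omega)]
    have hcj : ((K - j : ℕ) : ℝ) = K - j := by
      rw [Nat.cast_sub (by omega)]
    have hBB := hB (K - i) (K - j)
    rw [hci, hcj] at hBB
    have q1 : Real.exp (-((K : ℝ) - i)) ≤ Real.exp (-(K : ℝ)) * (Real.exp 1 ^ i * Real.exp 1 ^ j) := by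
      rw [← Real.exp_nat_mul, ← Real.exp_nat_mul, ← Real.exp_add, ← Real.exp_add]
      refine Real.exp_le_exp.2 ?_
      have : (0 : ℝ) ≤ j := Nat.cast_nonneg j
      linarith
    have q2 : Real.exp (-((K : ℝ) - j)) ≤ Real.exp (-(K : ℝ)) * (Real.exp 1 ^ i * Real.exp 1 ^ j) := by
      rw [← Real.exp_nat_mul, ← Real.exp_nat_mul, ← Real.exp_add, ← Real.exp_add]
      refine Real.exp_le_exp.2 ?_
      have : (0 : ℝ) ≤ i := Nat.cast_nonneg i
      linarith
    have he1 : (1 : ℝ) ≤ Real.exp 1 := by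
      have := Real.add_one_le_exp (1 : ℝ)
      linarith
    have q3 : 1 ≤ Real.exp 1 ^ i * Real.exp 1 ^ j := by
      have u1 : 1 ≤ Real.exp 1 ^ i := one_le_pow₀ he1
      have u2 : 1 ≤ Real.exp 1 ^ j := one_le_pow₀ he1
      nlinarith
    have q4 : |lam w1 (NK (K - i) κ (xI I₂) * NK (K - j) κ (yI I₂))| ≤
        (Real.exp 1 ^ i * Real.exp 1 ^ j) * (E + 2 * Real.exp (-(K : ℝ)) * F) := by
      refine hBB.trans ?_
      have v1 : E ≤ (Real.exp 1 ^ i * Real.exp 1 ^ j) * E := le_mul_of_one_le_left hE q3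
      have v2 : (Real.exp (-((K : ℝ) - i)) + Real.exp (-((K : ℝ) - j))) * F ≤
          (2 * (Real.exp (-(K : ℝ)) * (Real.exp 1 ^ i * Real.exp 1 ^ j))) * F :=
        mul_le_mul_of_nonneg_right (by linarith) hF
      calc _ ≤ (Real.exp 1 ^ i * Real.exp 1 ^ j) * E +
            (2 * (Real.exp (-(K : ℝ)) * (Real.exp 1 ^ i * Real.exp 1 ^ j))) * F := add_le_add v1 v2
        _ = _ := by ring
    rw [abs_mul, abs_mul, abs_mul, abs_div, abs_div, abs_pow, abs_pow,
      abs_of_nonneg (by positivity : (0 : ℝ) ≤ (i.factorial : ℝ)),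
      abs_of_nonneg (by positivity : (0 : ℝ) ≤ (j.factorial : ℝ))]
    calc |κ| ^ i / (i.factorial : ℝ) * (|κ| ^ j / (j.factorial : ℝ)) *
          (|lam w' (xI I₁ ^ i * yI I₁ ^ j)| *
            |lam w1 (NK (K - i) κ (xI I₂) * NK (K - j) κ (yI I₂))|) ≤
        |κ| ^ i / (i.factorial : ℝ) * (|κ| ^ j / (j.factorial : ℝ)) *
          ((M * n ^ (i + j)) * ((Real.exp 1 ^ i * Real.exp 1 ^ j) *
            (E + 2 * Real.exp (-(K : ℝ)) * F))) := by
          refine mul_le_mul_of_nonneg_left ?_ (by positivity)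
          exact mul_le_mul (hb i j) q4 (abs_nonneg _) (by positivity)
      _ = _ := by
          rw [pow_add, mul_pow, mul_pow, mul_pow, mul_pow]
          ring
  refine (abs_sum_le_sum_abs _ _).trans ?_
  refine (sum_le_sum fun i hi => (abs_sum_le_sum_abs _ _).trans
    (sum_le_sum fun j hj => e3 i hi j hj)).trans ?_
  have hx : 0 ≤ Real.exp 1 * (|κ| * n) := by positivity
  have h9 := Real.sum_le_exp_of_nonneg hx (K + 1)
  have h10 : 0 ≤ ∑ k ∈ range (K + 1), (Real.exp 1 * (|κ| * n)) ^ k / (k.factorial : ℝ) :=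
    sum_nonneg fun k _ => by positivity
  have h11 : 0 ≤ M * (E + 2 * Real.exp (-(K : ℝ)) * F) := by positivity
  calc _ = (∑ i ∈ range (K + 1), (Real.exp 1 * (|κ| * n)) ^ i / (i.factorial : ℝ)) *
        (∑ j ∈ range (K + 1), (Real.exp 1 * (|κ| * n)) ^ j / (j.factorial : ℝ)) *
          (M * (E + 2 * Real.exp (-(K : ℝ)) * F)) := by
        rw [sum_mul_sum, sum_mul]
        refine sum_congr rfl fun i _ => ?_
        rw [sum_mul]
    _ ≤ (Real.exp (Real.exp 1 * (|κ| * n)) * Real.exp (Real.exp 1 * (|κ| * n))) *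
          (M * (E + 2 * Real.exp (-(K : ℝ)) * F)) :=
        mul_le_mul_of_nonneg_right (mul_le_mul h9 h9 h10 (Real.exp_pos _).le) h11
    _ = _ := by ring

end

end Pool.Agent.Y674.LD
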