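import Pool.Agent.Y674.LD.Z3a
import Pool.Agent.TH838.LK.EXP
import Pool.Agent.TH364.LK_LAW
import Pool.Agent.TH328.LK_ALG

set_option autoImplicit false

/-! LD-Z3, part b: the functionals of the twisted second moment at truncated exponentials. -/

namespace Pool.Agent.Y674.LD

open Finset MonoidAlgebra MeasureTheory Filter
open Pool.Agent.W184.NZ
open Pool.Agent.TH806 Pool.Agent.TH806.LK
open Pool.Agent.TH838.LK (integ2)

noncomputable section

theorem real_tail (K : ℕ) {x : ℝ} (hx : 0 ≤ x) :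
    Real.exp x - ∑ m ∈ range (K + 1), x ^ m / (m.factorial : ℝ) ≤
      Real.exp (-(K : ℝ)) * Real.exp (Real.exp 1 * x) := by
  have h1 : HasSum (fun m : ℕ => x ^ m / (m.factorial : ℝ)) (Real.exp x) :=
    Pool.Agent.TH364.LK_LAW.a1R x
  have h2 : HasSum (fun m : ℕ => (Real.exp 1 * x) ^ m / (m.factorial : ℝ))
      (Real.exp (Real.exp 1 * x)) := Pool.Agent.TH364.LK_LAW.a1R _
  have h3 : HasSum (fun m : ℕ => if m ∈ range (K + 1) then x ^ m / (m.factorial : ℝ) else 0)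
      (∑ m ∈ range (K + 1), if m ∈ range (K + 1) then x ^ m / (m.factorial : ℝ) else 0) :=
    hasSum_sum_of_ne_finset_zero fun m hm => if_neg hm
  have h4 : (∑ m ∈ range (K + 1), if m ∈ range (K + 1) then x ^ m / (m.factorial : ℝ) else 0) =
      ∑ m ∈ range (K + 1), x ^ m / (m.factorial : ℝ) := sum_congr rfl fun m hm => if_pos hm
  rw [h4] at h3
  have h5 := hasSum_le (fun m => ?_) h1 (h3.add (h2.mul_left (Real.exp (-(K : ℝ)))))
  · linarith
  · have h0 : 0 ≤ Real.exp (-(K : ℝ)) * ((Real.exp 1 * x) ^ m / (m.factorial : ℝ)) := by positivity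
    split_ifs with hm
    · linarith
    · rw [mem_range, not_lt] at hm
      rw [zero_add]
      have h6 : 1 ≤ Real.exp (-(K : ℝ)) * Real.exp 1 ^ m := by
        rw [← Real.exp_nat_mul, ← Real.exp_add, mul_one]
        refine Real.one_le_exp ?_
        have : (K : ℝ) + 1 ≤ m := by exact_mod_cast hm
        linarith
      have h7 : 0 ≤ x ^ m / (m.factorial : ℝ) := by positivity
      calc x ^ m / (m.factorial : ℝ) ≤ (Real.exp (-(K : ℝ)) * Real.exp 1 ^ m) *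
            (x ^ m / (m.factorial : ℝ)) := le_mul_of_one_le_left h7 h6
        _ = _ := by rw [mul_pow]; ring

theorem NK_tail (K : ℕ) (a : ℝ) (z : ℂ) :
    ‖NK K a z - Complex.exp (a * z)‖ ≤
      Real.exp (-(K : ℝ)) * Real.exp (Real.exp 1 * (|a| * ‖z‖)) := by
  have h1 := Complex.norm_exp_sub_sum_le_exp_norm_sub_sum ((a : ℂ) * z) (K + 1)
  rw [norm_sub_rev, NK_eq]
  have h2 : ‖(a : ℂ) * z‖ = |a| * ‖z‖ := by
    rw [norm_mul, Complex.norm_real, Real.norm_eq_abs]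
  rw [h2] at h1
  exact h1.trans (real_tail K (by positivity))

theorem NK_norm (K : ℕ) (a : ℝ) (z : ℂ) : ‖NK K a z‖ ≤ Real.exp (|a| * ‖z‖) := by
  rw [NK_eq]
  refine (norm_sum_le _ _).trans ?_
  refine le_trans ?_ (Real.sum_le_exp_of_nonneg (by positivity : 0 ≤ |a| * ‖z‖) (K + 1))
  refine sum_le_sum fun m _ => le_of_eq ?_
  rw [norm_div, norm_pow, norm_mul, Complex.norm_real, Real.norm_eq_abs]
  simp only [Complex.norm_natCast]

section

variable {κ₁ κ₂ Q C : ℝ} {I : Finset ℕ} {ν : Measure (ℂ × ℂ)} {w : ℕ × ℕ → ℝ}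

theorem law_NK2 (h : LW w κ₁ κ₂ Q C I ν) (K K' : ℕ) (a a' : ℝ) :
    ((lam w (NK K a (xI I) * NK K' a' (yI I)) : ℝ) : ℂ) =
      ∫ q, q.2 * (NK K a q.1 * NK K' a' (starRingEnd ℂ q.1)) ∂ν := by
  have := h.prob
  obtain ⟨B, hB⟩ := h.bdd
  have hi : ∀ k l : ℕ, Integrable (fun q : ℂ × ℂ =>
      ((a ^ k / (k.factorial : ℝ) * (a' ^ l / (l.factorial : ℝ)) : ℝ) : ℂ) *
      (q.2 * (q.1 ^ k * (starRingEnd ℂ q.1) ^ l))) ν := fun k l => integ2 hB (by fun_prop)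
  have e1 : NK K a (xI I) * NK K' a' (yI I) = ∑ k ∈ range (K + 1), ∑ l ∈ range (K' + 1),
      (a ^ k / (k.factorial : ℝ) * (a' ^ l / (l.factorial : ℝ))) • (xI I ^ k * yI I ^ l) := by
    unfold NK
    rw [sum_mul_sum]
    refine sum_congr rfl fun k _ => sum_congr rfl fun l _ => ?_
    rw [smul_mul_smul_comm]
  have e2 : ∀ q : ℂ × ℂ, q.2 * (NK K a q.1 * NK K' a' (starRingEnd ℂ q.1)) =
      ∑ k ∈ range (K + 1), ∑ l ∈ range (K' + 1),
      ((a ^ k / (k.factorial : ℝ) * (a' ^ l / (l.factorial : ℝ)) : ℝ) : ℂ) *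
      (q.2 * (q.1 ^ k * (starRingEnd ℂ q.1) ^ l)) := by
    intro q
    unfold NK
    rw [sum_mul_sum, mul_sum]
    refine sum_congr rfl fun k _ => ?_
    rw [mul_sum]
    refine sum_congr rfl fun l _ => ?_
    rw [smul_mul_smul_comm, Complex.real_smul]
    ring
  simp_rw [e2]
  rw [e1, map_sum, integral_finsetSum _ fun k _ => integrable_finsetSum _ fun l _ => hi k l]
  push_cast
  refine sum_congr rfl fun k _ => ?_
  have hi' := hi k
  push_cast at hi'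
  rw [map_sum, integral_finsetSum _ fun l _ => hi' l]
  push_cast
  refine sum_congr rfl fun l _ => ?_
  rw [integral_const_mul, h.mom, map_smul, smul_eq_mul]
  push_cast
  ring

theorem pt_bound (K₁ K₂ : ℕ) (κ : ℝ) (z : ℂ) :
    ‖NK K₁ κ z * NK K₂ κ (starRingEnd ℂ z) -
      Complex.exp (κ * z + κ * starRingEnd ℂ z)‖ ≤
      (Real.exp (-(K₁ : ℝ)) + Real.exp (-(K₂ : ℝ))) * Real.exp (4 * (|κ| * ‖z‖)) := by
  have hz : ‖starRingEnd ℂ z‖ = ‖z‖ := RCLike.norm_conj z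
  have h1 := NK_tail K₁ κ z
  have h2 := NK_tail K₂ κ (starRingEnd ℂ z)
  have h3 := NK_norm K₂ κ (starRingEnd ℂ z)
  have h4 : ‖Complex.exp ((κ : ℂ) * z)‖ ≤ Real.exp (|κ| * ‖z‖) := by
    rw [Complex.norm_exp]
    refine Real.exp_le_exp.2 ((Complex.re_le_norm _).trans ?_)
    rw [norm_mul, Complex.norm_real, Real.norm_eq_abs]
  rw [hz] at h2 h3
  have hr : 0 ≤ |κ| * ‖z‖ := by positivity
  have he : Real.exp 1 + 1 ≤ 4 := by
    have := Real.exp_one_lt_d9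
    linarith
  have h5 : Real.exp (Real.exp 1 * (|κ| * ‖z‖)) * Real.exp (|κ| * ‖z‖) ≤
      Real.exp (4 * (|κ| * ‖z‖)) := by
    rw [← Real.exp_add]
    refine Real.exp_le_exp.2 ?_
    nlinarith
  have e : NK K₁ κ z * NK K₂ κ (starRingEnd ℂ z) - Complex.exp (κ * z + κ * starRingEnd ℂ z) =
      (NK K₁ κ z - Complex.exp (κ * z)) * NK K₂ κ (starRingEnd ℂ z) +
        Complex.exp (κ * z) * (NK K₂ κ (starRingEnd ℂ z) - Complex.exp (κ * starRingEnd ℂ z)) := by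
    rw [Complex.exp_add]; ring
  rw [e]
  refine (norm_add_le _ _).trans ?_
  rw [norm_mul, norm_mul]
  have a1 : ‖NK K₁ κ z - Complex.exp (κ * z)‖ * ‖NK K₂ κ (starRingEnd ℂ z)‖ ≤
      (Real.exp (-(K₁ : ℝ)) * Real.exp (Real.exp 1 * (|κ| * ‖z‖))) * Real.exp (|κ| * ‖z‖) :=
    mul_le_mul h1 h3 (norm_nonneg _) (by positivity)
  have a2 : ‖Complex.exp ((κ : ℂ) * z)‖ * ‖NK K₂ κ (starRingEnd ℂ z) -
      Complex.exp (κ * starRingEnd ℂ z)‖ ≤
      Real.exp (|κ| * ‖z‖) * (Real.exp (-(K₂ : ℝ)) * Real.exp (Real.exp 1 * (|κ| * ‖z‖))) :=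
    mul_le_mul h4 h2 (norm_nonneg _) (by positivity)
  have a3 : Real.exp (-(K₁ : ℝ)) * (Real.exp (Real.exp 1 * (|κ| * ‖z‖)) * Real.exp (|κ| * ‖z‖)) ≤
      Real.exp (-(K₁ : ℝ)) * Real.exp (4 * (|κ| * ‖z‖)) :=
    mul_le_mul_of_nonneg_left h5 (Real.exp_pos _).le
  have a4 : Real.exp (-(K₂ : ℝ)) * (Real.exp (Real.exp 1 * (|κ| * ‖z‖)) * Real.exp (|κ| * ‖z‖)) ≤
      Real.exp (-(K₂ : ℝ)) * Real.exp (4 * (|κ| * ‖z‖)) :=
    mul_le_mul_of_nonneg_left h5 (Real.exp_pos _).le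
  calc _ ≤ _ := add_le_add a1 a2
    _ = Real.exp (-(K₁ : ℝ)) * (Real.exp (Real.exp 1 * (|κ| * ‖z‖)) * Real.exp (|κ| * ‖z‖)) +
      Real.exp (-(K₂ : ℝ)) * (Real.exp (Real.exp 1 * (|κ| * ‖z‖)) * Real.exp (|κ| * ‖z‖)) := by ring
    _ ≤ _ := add_le_add a3 a4
    _ = _ := by ring

theorem law_bound {κ : ℝ} (h : LW w 1 1 Q C I ν) (hQ : 8 * |κ| ≤ Q) (K₁ K₂ : ℕ) :
    |lam w (NK K₁ κ (xI I) * NK K₂ κ (yI I))| ≤
      Real.exp ((2 * κ + κ ^ 2) * vI I + C * uI I) +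
        (Real.exp (-(K₁ : ℝ)) + Real.exp (-(K₂ : ℝ))) * (C * Real.exp (C * (vI I + uI I))) := by
  have := h.prob
  obtain ⟨B, hB⟩ := h.bdd
  have hκQ : ‖(κ : ℂ)‖ ≤ Q := by
    rw [Complex.norm_real, Real.norm_eq_abs]
    have := abs_nonneg κ
    linarith
  obtain ⟨ε, hε, hex⟩ := h.exq κ κ hκQ hκQ
  have h1 := law_NK2 h K₁ K₂ κ κ
  have h2 : |lam w (NK K₁ κ (xI I) * NK K₂ κ (yI I))| =
      ‖∫ q, q.2 * (NK K₁ κ q.1 * NK K₂ κ (starRingEnd ℂ q.1)) ∂ν‖ := by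
    rw [← h1, Complex.norm_real, Real.norm_eq_abs]
  have hc1 : Continuous fun q : ℂ × ℂ => q.2 * (NK K₁ κ q.1 * NK K₂ κ (starRingEnd ℂ q.1)) := by
    unfold NK
    fun_prop
  have hc2 : Continuous fun q : ℂ × ℂ => q.2 * Complex.exp (κ * q.1 + κ * starRingEnd ℂ q.1) := by
    fun_prop
  have h3 : ‖∫ q, q.2 * Complex.exp (κ * q.1 + κ * starRingEnd ℂ q.1) ∂ν‖ ≤
      Real.exp ((2 * κ + κ ^ 2) * vI I + C * uI I) := by
    rw [hex, Complex.norm_exp]
    refine Real.exp_le_exp.2 ?_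
    have e1 : ((((1 : ℝ) : ℂ) * (κ : ℂ) + ((1 : ℝ) : ℂ) * κ + (κ : ℂ) * κ) * (vI I : ℂ) + ε).re =
        (2 * κ + κ ^ 2) * vI I + ε.re := by
      have e2 : (((1 : ℝ) : ℂ) * (κ : ℂ) + ((1 : ℝ) : ℂ) * κ + (κ : ℂ) * κ) * (vI I : ℂ) =
          (((2 * κ + κ ^ 2) * vI I : ℝ) : ℂ) := by
        push_cast; ring
      rw [e2, Complex.add_re, Complex.ofReal_re]
    rw [e1]
    have := (Complex.re_le_norm ε).trans hε
    linarith
  have h4 : ‖(∫ q, q.2 * (NK K₁ κ q.1 * NK K₂ κ (starRingEnd ℂ q.1)) ∂ν) -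
      ∫ q, q.2 * Complex.exp (κ * q.1 + κ * starRingEnd ℂ q.1) ∂ν‖ ≤
      (Real.exp (-(K₁ : ℝ)) + Real.exp (-(K₂ : ℝ))) * (C * Real.exp (C * (vI I + uI I))) := by
    rw [← integral_sub (integ2 hB hc1) (integ2 hB hc2)]
    refine (norm_integral_le_integral_norm _).trans ?_
    have hmono : ∀ q : ℂ × ℂ, ‖q.2 * (NK K₁ κ q.1 * NK K₂ κ (starRingEnd ℂ q.1)) -
        q.2 * Complex.exp (κ * q.1 + κ * starRingEnd ℂ q.1)‖ ≤
        (Real.exp (-(K₁ : ℝ)) + Real.exp (-(K₂ : ℝ))) *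
          (1 / 2 * ‖q.2‖ ^ 2 + 1 / 2 * Real.exp (Q * ‖q.1‖)) := by
      intro q
      rw [← mul_sub, norm_mul]
      have b1 := pt_bound K₁ K₂ κ q.1
      have b2 : ‖q.2‖ * Real.exp (4 * (|κ| * ‖q.1‖)) ≤
          1 / 2 * ‖q.2‖ ^ 2 + 1 / 2 * Real.exp (Q * ‖q.1‖) := by
        have b3 : Real.exp (4 * (|κ| * ‖q.1‖)) ^ 2 ≤ Real.exp (Q * ‖q.1‖) := by
          rw [← Real.exp_nat_mul]
          refine Real.exp_le_exp.2 ?_
          push_cast
          nlinarith [norm_nonneg q.1]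
        nlinarith [sq_nonneg (‖q.2‖ - Real.exp (4 * (|κ| * ‖q.1‖)))]
      calc _ ≤ ‖q.2‖ * ((Real.exp (-(K₁ : ℝ)) + Real.exp (-(K₂ : ℝ))) *
            Real.exp (4 * (|κ| * ‖q.1‖))) := mul_le_mul_of_nonneg_left b1 (norm_nonneg _)
        _ = (Real.exp (-(K₁ : ℝ)) + Real.exp (-(K₂ : ℝ))) *
            (‖q.2‖ * Real.exp (4 * (|κ| * ‖q.1‖))) := by ring
        _ ≤ _ := mul_le_mul_of_nonneg_left b2 (by positivity)
    have hi1 : Integrable (fun q : ℂ × ℂ => 1 / 2 * ‖q.2‖ ^ 2) ν := integ2 hB (by fun_prop)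
    have hi2 : Integrable (fun q : ℂ × ℂ => 1 / 2 * Real.exp (Q * ‖q.1‖)) ν :=
      integ2 hB (by fun_prop)
    refine (integral_mono (integ2 hB (hc1.sub hc2).norm) ((hi1.add hi2).const_mul _) hmono).trans ?_
    rw [integral_const_mul]
    refine mul_le_mul_of_nonneg_left ?_ (by positivity)
    simp only [Pi.add_apply]
    rw [integral_add hi1 hi2, integral_const_mul, integral_const_mul]
    linarith [h.dsq, h.expn]
  rw [h2]
  calc _ ≤ ‖∫ q, q.2 * Complex.exp (κ * q.1 + κ * starRingEnd ℂ q.1) ∂ν‖ +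
        ‖(∫ q, q.2 * (NK K₁ κ q.1 * NK K₂ κ (starRingEnd ℂ q.1)) ∂ν) -
      ∫ q, q.2 * Complex.exp (κ * q.1 + κ * starRingEnd ℂ q.1) ∂ν‖ := norm_le_norm_add_norm_sub' _ _
    _ ≤ _ := add_le_add h3 h4

end

/-- the sum of all `n^{-3/2}` -/
def UU : ℝ := ∑' n : ℕ, (n : ℝ) ^ (-(3 / 2 : ℝ))

theorem uI_le (I : Finset ℕ) : uI I ≤ UU := by
  have hs : Summable fun n : ℕ => (n : ℝ) ^ (-(3 / 2 : ℝ)) :=
    Real.summable_nat_rpow.2 (by norm_num)
  exact hs.sum_le_tsum _ fun n _ => by positivity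

theorem UU_nonneg : 0 ≤ UU := tsum_nonneg fun n => by positivity

theorem vI_le_card {I : Finset ℕ} (hI : ∀ p ∈ I, p.Prime) : vI I ≤ I.card := by
  unfold vI
  refine (sum_le_sum (g := fun _ => (1 : ℝ)) fun p hp => ?_).trans (by simp)
  have : (1 : ℝ) ≤ p := by exact_mod_cast (hI p hp).one_lt.le
  rw [div_le_one (by linarith)]
  exact this

/-- the two functionals at the square of the truncated exponential -/
theorem lam_bounds (κ : ℝ) : ∃ C : ℝ, 1 ≤ C ∧ ∀ I : Finset ℕ, (∀ p ∈ I, p.Prime) → ∀ K : ℕ,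
    |lam w1 (NK K κ (xI I) * NK K κ (yI I))| ≤
      C * (Real.exp ((2 * κ + κ ^ 2) * vI I) + Real.exp (-(K : ℝ)) * Real.exp (C * vI I)) ∧
    |lam wl (NK K κ (xI I) * NK K κ (yI I))| ≤
      C * (Real.exp ((2 * κ + κ ^ 2) * vI I) + Real.exp (-(K : ℝ)) * Real.exp (C * vI I)) *
        ∑ p ∈ I, Real.log p / p := by
  obtain ⟨P₀, C₀, -, hC₀, hlaw⟩ := Pool.Agent.TH364.LK_LAW.t_LAW Pool.Agent.TH328.LK_ALG.t_WF
    (8 * |κ| + 1) (by have := abs_nonneg κ; linarith)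
  obtain ⟨N, hN⟩ : ∃ N : ℝ, N = P₀ + 1 := ⟨_, rfl⟩
  have hN0 : 0 ≤ N := by rw [hN]; positivity
  obtain ⟨D, hD⟩ : ∃ D : ℝ, D = Real.exp (Real.exp 1 * (|κ| * (2 * N))) ^ 2 := ⟨_, rfl⟩
  have hD0 : 0 ≤ D := by rw [hD]; positivity
  obtain ⟨g, hg⟩ : ∃ g : ℝ, g = 2 * κ + κ ^ 2 := ⟨_, rfl⟩
  rw [← hg]
  -- the general bound
  have key : ∀ (w w' : ℕ × ℕ → ℝ) (I I₁ : Finset ℕ) (M : ℝ) (K : ℕ), (∀ p ∈ I, p.Prime) → I₁ ⊆ I →
      (I₁.card : ℝ) ≤ N → (∀ p ∈ I, p < P₀ → p ∈ I₁) → 0 ≤ M →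
      (∀ x ∈ MI I₁, ∀ y ∈ MI (I \ I₁), w (x * y) = w' x * w1 y) →
      (∀ i j, |lam w' (xI I₁ ^ i * yI I₁ ^ j)| ≤ M * (2 * N) ^ (i + j)) →
      |lam w (NK K κ (xI I) * NK K κ (yI I))| ≤ M * (D * (Real.exp (C₀ * UU + |g| * N) *
        Real.exp (g * vI I) + 2 * Real.exp (-(K : ℝ)) * (C₀ * Real.exp (C₀ * UU) *
          Real.exp (C₀ * vI I)))) := by
    intro w w' I I₁ M K hI hsub hcard hsm hM hw hb
    have hI₁ : ∀ p ∈ I₁, p.Prime := fun p hp => hI p (hsub hp)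
    have hI₂ : ∀ p ∈ I \ I₁, p.Prime ∧ P₀ ≤ p := by
      intro p hp
      rw [Finset.mem_sdiff] at hp
      refine ⟨hI p hp.1, ?_⟩
      by_contra hc
      exact hp.2 (hsm p hp.1 (not_le.1 hc))
    obtain ⟨ν, hν⟩ := (hlaw (I \ I₁) hI₂).2.1
    have hv : vI I = vI I₁ + vI (I \ I₁) := by
      unfold vI
      rw [add_comm]
      exact (sum_sdiff hsub).symm
    have hv1 : vI I₁ ≤ N := (vI_le_card hI₁).trans hcard
    have hv0 := vI_nonneg I₁
    have hv2 := vI_nonneg (I \ I₁)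
    have hu := uI_le (I \ I₁)
    have hB : ∀ K₁ K₂ : ℕ, |lam w1 (NK K₁ κ (xI (I \ I₁)) * NK K₂ κ (yI (I \ I₁)))| ≤
        Real.exp (C₀ * UU + |g| * N) * Real.exp (g * vI I) +
          (Real.exp (-(K₁ : ℝ)) + Real.exp (-(K₂ : ℝ))) *
            (C₀ * Real.exp (C₀ * UU) * Real.exp (C₀ * vI I)) := by
      intro K₁ K₂
      refine (law_bound hν (by linarith) K₁ K₂).trans (add_le_add ?_ ?_)
      · rw [← Real.exp_add, ← hg]
        refine Real.exp_le_exp.2 ?_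
        have q1 : C₀ * uI (I \ I₁) ≤ C₀ * UU := mul_le_mul_of_nonneg_left hu (by linarith)
        have q2 : -(|g| * N) ≤ g * vI I₁ := by
          have r1 : -|g| * vI I₁ ≤ g * vI I₁ := mul_le_mul_of_nonneg_right (neg_abs_le g) hv0
          have r2 : |g| * vI I₁ ≤ |g| * N := mul_le_mul_of_nonneg_left hv1 (abs_nonneg g)
          linarith
        rw [hv]
        linarith [mul_add g (vI I₁) (vI (I \ I₁))]
      · refine mul_le_mul_of_nonneg_left ?_ (by positivity)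
        rw [mul_assoc, ← Real.exp_add]
        refine mul_le_mul_of_nonneg_left (Real.exp_le_exp.2 ?_) (by linarith)
        have q1 : C₀ * uI (I \ I₁) ≤ C₀ * UU := mul_le_mul_of_nonneg_left hu (by linarith)
        have q2 : C₀ * vI (I \ I₁) ≤ C₀ * vI I := mul_le_mul_of_nonneg_left (by linarith) (by linarith)
        rw [mul_add]
        linarith
    have hU : I₁ ∪ (I \ I₁) = I := union_sdiff_of_subset hsub
    have hC0 : 0 ≤ C₀ := by linarith
    have := split_bound (w := w) (w' := w') (κ := κ) (M := M) (n := 2 * N) disjoint_sdiff hI₁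
      (fun p hp => (hI₂ p hp).1) hw hM (by linarith) (by positivity) (by positivity) hb hB K
    rw [hU, ← hD] at this
    refine this.trans (le_of_eq ?_)
    ring
  -- small primes
  have hsmall : ∀ I : Finset ℕ, ((I.filter (· < P₀)).card : ℝ) ≤ P₀ := by
    intro I
    have h1 : I.filter (· < P₀) ⊆ range P₀ := by
      intro p hp
      rw [mem_filter] at hp
      exact mem_range.2 hp.2
    have h2 := card_le_card h1
    rw [card_range] at h2
    exact_mod_cast h2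
  obtain ⟨C, hC⟩ : ∃ C : ℝ, C = 1 + D * (Real.exp (C₀ * UU + |g| * N) +
      2 * (C₀ * Real.exp (C₀ * UU))) + C₀ := ⟨_, rfl⟩
  have hUU := UU_nonneg
  have hp1 : 0 ≤ D * (Real.exp (C₀ * UU + |g| * N) + 2 * (C₀ * Real.exp (C₀ * UU))) := by positivity
  have hC1 : 1 ≤ C := by rw [hC]; linarith
  have hCC₀ : C₀ ≤ C := by rw [hC]; linarith
  have hfin : ∀ (I : Finset ℕ) (K : ℕ), D * (Real.exp (C₀ * UU + |g| * N) *
        Real.exp (g * vI I) + 2 * Real.exp (-(K : ℝ)) * (C₀ * Real.exp (C₀ * UU) *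
          Real.exp (C₀ * vI I))) ≤
      C * (Real.exp (g * vI I) + Real.exp (-(K : ℝ)) * Real.exp (C * vI I)) := by
    intro I K
    have hv := vI_nonneg I
    have h1 : Real.exp (C₀ * vI I) ≤ Real.exp (C * vI I) :=
      Real.exp_le_exp.2 (mul_le_mul_of_nonneg_right hCC₀ hv)
    obtain ⟨A, hA⟩ : ∃ A : ℝ, A = Real.exp (C₀ * UU + |g| * N) := ⟨_, rfl⟩
    obtain ⟨A', hA'⟩ : ∃ A' : ℝ, A' = C₀ * Real.exp (C₀ * UU) := ⟨_, rfl⟩
    rw [← hA, ← hA'] at hC ⊢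
    have hA0 : 0 ≤ A := by rw [hA]; positivity
    have hA0' : 0 ≤ A' := by rw [hA']; positivity
    have c1 : D * A ≤ C := by
      have : 0 ≤ D * (2 * A') := by positivity
      rw [hC]; linarith
    have c2 : D * (2 * A') ≤ C := by
      have : 0 ≤ D * A := by positivity
      rw [hC]; linarith
    have c3 : D * A * Real.exp (g * vI I) ≤ C * Real.exp (g * vI I) :=
      mul_le_mul_of_nonneg_right c1 (Real.exp_pos _).le
    have c4 : D * (2 * A') * (Real.exp (-(K : ℝ)) * Real.exp (C₀ * vI I)) ≤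
        C * (Real.exp (-(K : ℝ)) * Real.exp (C * vI I)) := by
      refine mul_le_mul c2 (mul_le_mul_of_nonneg_left h1 (Real.exp_pos _).le) (by positivity)
        (by linarith)
    calc _ = D * A * Real.exp (g * vI I) +
          D * (2 * A') * (Real.exp (-(K : ℝ)) * Real.exp (C₀ * vI I)) := by ring
      _ ≤ _ := add_le_add c3 c4
      _ = _ := by ring
  refine ⟨C, hC1, fun I hI K => ⟨?_, ?_⟩⟩
  · have h1 := key w1 w1 I (I.filter (· < P₀)) 1 K hI (filter_subset _ _)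
      (by rw [hN]; have := hsmall I; linarith) (fun p hp hpP => mem_filter.2 ⟨hp, hpP⟩) zero_le_one
      (fun x hx y hy => w1_mul' disjoint_sdiff hx hy)
      (w1_xy (fun p hp => hI p (mem_filter.1 hp).1) (by rw [hN]; have := hsmall I; linarith))
    rw [one_mul] at h1
    exact h1.trans (hfin I K)
  · have hmem : NK K κ (xI I) * NK K κ (yI I) ∈ SA (MI I) :=
      Subalgebra.mul_mem _ (NK_mem (xI_mem hI) K κ) (NK_mem (yI_mem hI) K κ)
    rw [lam_wl hmem]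
    refine (abs_sum_le_sum_abs _ _).trans ?_
    rw [mul_sum]
    refine sum_le_sum fun p hp => ?_
    have hpp := hI p hp
    have hlog : 0 ≤ Real.log p := Real.log_natCast_nonneg p
    have hcard : ((insert p (I.filter (· < P₀))).card : ℝ) ≤ N := by
      have h1 := card_insert_le p (I.filter (· < P₀))
      have h2 : ((insert p (I.filter (· < P₀))).card : ℝ) ≤ (I.filter (· < P₀)).card + 1 := by
        exact_mod_cast h1
      have := hsmall I
      rw [hN]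
      linarith
    have hsub : insert p (I.filter (· < P₀)) ⊆ I := insert_subset hp (filter_subset _ _)
    have h1 := key (wp p) (wp p) I (insert p (I.filter (· < P₀))) (1 / p) K hI hsub hcard
      (fun q hq hqP => mem_insert_of_mem (mem_filter.2 ⟨hq, hqP⟩)) (by positivity)
      (fun x hx y hy => wp_mul disjoint_sdiff hpp (mem_insert_self _ _) hx hy)
      (wp_xy (fun q hq => hI q (hsub hq)) hcard hpp)
    rw [abs_mul, abs_of_nonneg hlog]
    have hp0 : (0 : ℝ) < p := by exact_mod_cast hpp.pos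
    calc Real.log p * |lam (wp p) (NK K κ (xI I) * NK K κ (yI I))| ≤
        Real.log p * ((1 / p) * (C * (Real.exp (g * vI I) +
          Real.exp (-(K : ℝ)) * Real.exp (C * vI I)))) := by
          refine mul_le_mul_of_nonneg_left (h1.trans ?_) hlog
          exact mul_le_mul_of_nonneg_left (hfin I K) (by positivity)
      _ = _ := by ring

end

end Pool.Agent.Y674.LD
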